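import Pool.Agent.H634R2.Clique
import Pool.Agent.NPC.Dec

/-!
# Connectivity pairs: definitions and the construction

See the results file `Pool/Agent/Results/MP_cdd24e_lc/NPHard.lean` for the idea.
-/

set_option autoImplicit false

namespace Pool.Agent.H268CP

open Pool.Agent.NPC Pool.Agent.NPC.H634R2

section defs

variable {W : Type}

/-- `(S, T)` is a `v`–`w` disconnecting pair: `S` is a set of vertices other than `v`, `w`, `T` is a
set of edges, and no walk from `v` to `w` avoids both `S` and `T` (so `v` and `w` lie in different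
components of `G - (S ∪ T)`). -/
def Disconnecting (G : SimpleGraph W) (v w : W) (S : Finset W) (T : Finset (Sym2 W)) : Prop :=
  v ∉ S ∧ w ∉ S ∧ (∀ e ∈ T, e ∈ G.edgeSet) ∧
    ∀ p : G.Walk v w, (∃ x ∈ p.support, x ∈ S) ∨ ∃ e ∈ p.edges, e ∈ T

/-- `v`, `w` are `(k, l)`-connected: no disconnecting pair with `s` vertices and `t` edges satisfies
`s < k` and `t ≤ l`, or `s ≤ k` and `t < l`. -/
def KLConnected (G : SimpleGraph W) (v w : W) (k l : ℕ) : Prop :=
  ∀ (S : Finset W) (T : Finset (Sym2 W)), Disconnecting G v w S T →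
    ¬ ((S.card < k ∧ T.card ≤ l) ∨ (S.card ≤ k ∧ T.card < l))

/-- `(k, l)` is a `v`–`w` connectivity pair. -/
def ConnectivityPair (G : SimpleGraph W) (v w : W) (k l : ℕ) : Prop :=
  KLConnected G v w k l ∧ ¬ KLConnected G v w (k + 1) l ∧ ¬ KLConnected G v w k (l + 1)

/-- The vertex set `S` separates `v` from `w`. -/
def Separates (G : SimpleGraph W) (v w : W) (S : Finset W) : Prop :=
  v ∉ S ∧ w ∉ S ∧ ∀ p : G.Walk v w, ∃ x ∈ p.support, x ∈ S

/-- `k ≤ κ(v, w)`. -/
def LeKappa (G : SimpleGraph W) (v w : W) (k : ℕ) : Prop :=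
  ∀ S : Finset W, Separates G v w S → k ≤ S.card

/-- An edge of a disconnecting pair can be replaced by one of its ends. -/
theorem Disconnecting.convert {G : SimpleGraph W} {v w : W} (hn : ¬ G.Adj v w)
    {S : Finset W} {T : Finset (Sym2 W)} (h : Disconnecting G v w S T) (hT : 0 < T.card) :
    ∃ S' T', Disconnecting G v w S' T' ∧ S'.card ≤ S.card + 1 ∧ T'.card + 1 = T.card := by
  classical
  obtain ⟨e, he⟩ := Finset.card_pos.1 hT
  obtain ⟨hv, hw, hTe, hp⟩ := h
  have hz : ∃ z ∈ e, z ≠ v ∧ z ≠ w := by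
    have hee := hTe e he
    induction e with
    | _ x y =>
      rw [SimpleGraph.mem_edgeSet] at hee
      by_contra hcon
      push Not at hcon
      have hx := hcon x (Sym2.mem_mk_left x y)
      have hy := hcon y (Sym2.mem_mk_right x y)
      have hxy := hee.ne
      by_cases h1 : x = v
      · by_cases h2 : y = v
        · exact hxy (h1.trans h2.symm)
        · rw [h1, hy h2] at hee
          exact hn hee
      · rw [hx h1] at hee hxy
        by_cases h2 : y = v
        · rw [h2] at hee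
          exact hn hee.symm
        · exact hxy (hy h2).symm
  obtain ⟨z, hze, hzv, hzw⟩ := hz
  refine ⟨insert z S, T.erase e, ⟨?_, ?_, ?_, ?_⟩, Finset.card_insert_le _ _, ?_⟩
  · rw [Finset.mem_insert, not_or]
    exact ⟨fun h' => hzv h'.symm, hv⟩
  · rw [Finset.mem_insert, not_or]
    exact ⟨fun h' => hzw h'.symm, hw⟩
  · intro e' he'
    exact hTe e' (Finset.mem_of_mem_erase he')
  · intro p
    rcases hp p with ⟨x, hx, hxS⟩ | ⟨e', he', heT⟩
    · exact Or.inl ⟨x, hx, Finset.mem_insert_of_mem hxS⟩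
    · by_cases hee : e' = e
      · subst hee
        exact Or.inl ⟨z, p.mem_support_of_mem_edges he' hze, Finset.mem_insert_self _ _⟩
      · exact Or.inr ⟨e', he', Finset.mem_erase.2 ⟨hee, heT⟩⟩
  · rw [Finset.card_erase_of_mem he]
    have := Finset.card_pos.2 ⟨e, he⟩
    omega

/-- The least number of edges of a disconnecting pair with at most `k` vertices. -/
noncomputable def coord (G : SimpleGraph W) (v w : W) (k : ℕ) : ℕ :=
  sInf {t | ∃ S T, Disconnecting G v w S T ∧ S.card ≤ k ∧ T.card = t}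

theorem exists_disconnecting [Finite W] (G : SimpleGraph W) {v w : W} (hvw : v ≠ w) :
    ∃ S T, Disconnecting G v w S T ∧ S.card = 0 := by
  classical
  have := Fintype.ofFinite W
  refine ⟨∅, G.edgeFinset, ⟨by simp, by simp, fun e he => by simpa using he, ?_⟩, by simp⟩
  intro p
  right
  cases p with
  | nil => exact absurd rfl hvw
  | cons h q =>
    exact ⟨_, by rw [SimpleGraph.Walk.edges_cons]; exact List.mem_cons_self, by simpa using h⟩

theorem coord_spec [Finite W] (G : SimpleGraph W) {v w : W} (hvw : v ≠ w) (k : ℕ) :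
    ∃ S T, Disconnecting G v w S T ∧ S.card ≤ k ∧ T.card = coord G v w k := by
  have hne : {t | ∃ S T, Disconnecting G v w S T ∧ S.card ≤ k ∧ T.card = t}.Nonempty := by
    obtain ⟨S, T, h, hS⟩ := exists_disconnecting G hvw
    exact ⟨T.card, S, T, h, by omega, rfl⟩
  exact Nat.sInf_mem hne

theorem coord_le (G : SimpleGraph W) {v w : W} {k : ℕ} {S : Finset W} {T : Finset (Sym2 W)}
    (h : Disconnecting G v w S T) (hS : S.card ≤ k) : coord G v w k ≤ T.card :=
  Nat.sInf_le ⟨S, T, h, hS, rfl⟩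

/-- For non-adjacent `v`, `w` and `k ≤ κ(v, w)` there is exactly one connectivity pair `(k, l)`, and
`l` is the least number of edges of a disconnecting pair with at most `k` vertices. -/
theorem pair_iff [Finite W] {G : SimpleGraph W} {v w : W} (hvw : v ≠ w) (hn : ¬ G.Adj v w)
    {k : ℕ} (hk : LeKappa G v w k) {l : ℕ} :
    ConnectivityPair G v w k l ↔ l = coord G v w k := by
  obtain ⟨S₀, T₀, hD₀, hS₀, hT₀⟩ := coord_spec G hvw k
  constructor
  · rintro ⟨h1, _, h3⟩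
    have hle : ∃ S T, Disconnecting G v w S T ∧ S.card ≤ k ∧ T.card ≤ l := by
      unfold KLConnected at h3
      push Not at h3
      obtain ⟨S, T, hD, h4⟩ := h3
      by_cases h5 : S.card ≤ k ∧ T.card ≤ l
      · exact ⟨S, T, hD, h5⟩
      · have h6 : S.card < k ∧ T.card = l + 1 := by omega
        obtain ⟨S', T', hD', h7, h8⟩ := hD.convert hn (by omega)
        exact ⟨S', T', hD', by omega, by omega⟩
    obtain ⟨S, T, hD, hS, hT⟩ := hle
    have h4 := coord_le G hD hS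
    have h5 := h1 S₀ T₀ hD₀
    omega
  · rintro rfl
    refine ⟨?_, ?_, ?_⟩
    · intro S T hD hST
      have h4 : S.card ≤ k → coord G v w k ≤ T.card := coord_le G hD
      have h5 : S.card < k ∧ T.card = coord G v w k := by omega
      rcases Nat.eq_zero_or_pos T.card with h0 | h0
      · have hsep : Separates G v w S := by
          refine ⟨hD.1, hD.2.1, fun p => ?_⟩
          rcases hD.2.2.2 p with h6 | ⟨e, _, he⟩
          · exact h6
          · rw [Finset.card_eq_zero.1 h0] at he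
            simp at he
        have := hk S hsep
        omega
      · obtain ⟨S', T', hD', h7, h8⟩ := hD.convert hn h0
        have := coord_le G hD' (k := k) (by omega)
        omega
    · intro h
      exact h S₀ T₀ hD₀ (Or.inl ⟨by omega, hT₀.le⟩)
    · intro h
      exact h S₀ T₀ hD₀ (Or.inr ⟨hS₀, by omega⟩)

theorem coord_le_iff [Finite W] {G : SimpleGraph W} {v w : W} (hvw : v ≠ w) {k m : ℕ} :
    coord G v w k ≤ m ↔ ∃ S T, Disconnecting G v w S T ∧ S.card ≤ k ∧ T.card ≤ m := by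
  constructor
  · intro h
    obtain ⟨S, T, hD, hS, hT⟩ := coord_spec G hvw k
    exact ⟨S, T, hD, hS, by omega⟩
  · rintro ⟨S, T, hD, hS, hT⟩
    exact (coord_le G hD hS).trans hT

end defs

/-! ### Graphs given by lists -/

/-- The graph with the vertices in `V` and the edges in `E`. -/
def graphOf (V : List ℕ) (E : List (ℕ × ℕ)) : SimpleGraph {x : ℕ // x ∈ V} where
  Adj a b := a ≠ b ∧ (((a : ℕ), (b : ℕ)) ∈ E ∨ ((b : ℕ), (a : ℕ)) ∈ E)
  symm := ⟨fun _ _ h => ⟨h.1.symm, h.2.symm⟩⟩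
  loopless := ⟨fun _ h => h.1 rfl⟩

/-- An input `(((V, E), (v, w)), k)`: the lists of the vertices and of the edges of a graph, two
vertices `v`, `w`, and a number `k`. -/
abbrev Inst : Type := ((List ℕ × List (ℕ × ℕ)) × (ℕ × ℕ)) × ℕ

/-- A correct input: the lists describe a finite simple graph, `v` and `w` are distinct vertices, and
`k ≤ κ(v, w)`. -/
def Valid (I : Inst) : Prop :=
  IsGraph I.1.1.1 I.1.1.2 ∧ I.1.2.1 ≠ I.1.2.2 ∧
    ∃ (hv : I.1.2.1 ∈ I.1.1.1) (hw : I.1.2.2 ∈ I.1.1.1),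
      LeKappa (graphOf I.1.1.1 I.1.1.2) ⟨I.1.2.1, hv⟩ ⟨I.1.2.2, hw⟩ I.2

/-- `v` and `w` are not adjacent. -/
def NonAdjacent (I : Inst) : Prop := (I.1.2.1, I.1.2.2) ∉ I.1.1.2 ∧ (I.1.2.2, I.1.2.1) ∉ I.1.1.2

/-- `l` is the second coordinate of a `v`–`w` connectivity pair `(k, l)`. -/
def SecondCoordinate (I : Inst) (l : ℕ) : Prop :=
  ∃ (hv : I.1.2.1 ∈ I.1.1.1) (hw : I.1.2.2 ∈ I.1.1.1),
    ConnectivityPair (graphOf I.1.1.1 I.1.1.2) ⟨I.1.2.1, hv⟩ ⟨I.1.2.2, hw⟩ I.2 l

open Classical in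
/-- The least number of edges, as a function of the input. -/
noncomputable def coordI (I : Inst) : ℕ :=
  if h : I.1.2.1 ∈ I.1.1.1 ∧ I.1.2.2 ∈ I.1.1.1 then
    coord (graphOf I.1.1.1 I.1.1.2) ⟨I.1.2.1, h.1⟩ ⟨I.1.2.2, h.2⟩ I.2 else 0

theorem secondCoordinate_iff {I : Inst} (hI : Valid I) (hn : NonAdjacent I) {l : ℕ} :
    SecondCoordinate I l ↔ l = coordI I := by
  obtain ⟨_, hne, hv, hw, hk⟩ := hI
  have hne' : (⟨I.1.2.1, hv⟩ : {x : ℕ // x ∈ I.1.1.1}) ≠ ⟨I.1.2.2, hw⟩ := by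
    intro h
    exact hne (congrArg Subtype.val h)
  have hn' : ¬ (graphOf I.1.1.1 I.1.1.2).Adj ⟨I.1.2.1, hv⟩ ⟨I.1.2.2, hw⟩ := by
    rintro ⟨_, h | h⟩
    · exact hn.1 h
    · exact hn.2 h
  have hc : coordI I = coord (graphOf I.1.1.1 I.1.1.2) ⟨I.1.2.1, hv⟩ ⟨I.1.2.2, hw⟩ I.2 := by
    unfold coordI
    rw [dif_pos ⟨hv, hw⟩]
  rw [hc, ← pair_iff hne' hn' hk]
  exact ⟨fun ⟨_, _, h⟩ => h, fun h => ⟨hv, hw, h⟩⟩

/-! ### The construction -/

/-- The vertices: `0` and `1` are the terminals, `4 v + 2` is the vertex `v`, the vertices `8 j + 3`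
and `8 j + 7` belong to the `j`-th gadget, and `4 c + 4` is the middle vertex of the `c`-th path. -/
def verts (V : List ℕ) (F : List (ℕ × ℕ)) (K : ℕ) : List ℕ :=
  0 :: 1 :: (V.map (fun v => 4 * v + 2) ++
    ((List.range F.length).flatMap (fun j => [8 * j + 3, 8 * j + 7]) ++
      (List.range K).map (fun c => 4 * c + 4)))

/-- The six edges of a gadget. -/
def gad (p : (ℕ × ℕ) × ℕ) : List (ℕ × ℕ) :=
  [(0, 8 * p.2 + 3), (8 * p.2 + 3, 4 * p.1.1 + 2), (8 * p.2 + 3, 4 * p.1.2 + 2),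
    (4 * p.1.1 + 2, 8 * p.2 + 7), (4 * p.1.2 + 2, 8 * p.2 + 7), (8 * p.2 + 7, 1)]

/-- The two edges of a path. -/
def pth (c : ℕ) : List (ℕ × ℕ) := [(0, 4 * c + 4), (4 * c + 4, 1)]

/-- The edges. -/
def edges (F : List (ℕ × ℕ)) (K : ℕ) : List (ℕ × ℕ) :=
  F.zipIdx.flatMap gad ++ (List.range K).flatMap pth

variable {V : List ℕ} {F : List (ℕ × ℕ)} {K : ℕ}

theorem mem_verts {x : ℕ} : x ∈ verts V F K ↔ x = 0 ∨ x = 1 ∨ (∃ v ∈ V, x = 4 * v + 2) ∨
    (∃ j < F.length, x = 8 * j + 3 ∨ x = 8 * j + 7) ∨ ∃ c < K, x = 4 * c + 4 := by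
  simp only [verts, List.mem_cons, List.mem_append, List.mem_map, List.mem_flatMap, List.mem_range,
    List.not_mem_nil, or_false, eq_comm]

theorem mem_zipIdx {p : (ℕ × ℕ) × ℕ} (hp : p ∈ F.zipIdx) :
    p.1 ∈ F ∧ p.2 < F.length ∧ F.getD p.2 (0, 0) = p.1 := by
  rw [List.mem_zipIdx_iff_getElem?] at hp
  refine ⟨List.mem_of_getElem? hp, (List.getElem?_eq_some_iff.1 hp).1, ?_⟩
  rw [List.getD_eq_getElem?_getD, hp, Option.getD_some]

theorem zipIdx_mem {j : ℕ} (hj : j < F.length) : (F.getD j (0, 0), j) ∈ F.zipIdx := by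
  rw [List.mem_zipIdx_iff_getElem?]
  rw [List.getD_eq_getElem?_getD, List.getElem?_eq_getElem hj, Option.getD_some]

theorem mem_edges {a : ℕ × ℕ} : a ∈ edges F K ↔
    (∃ p ∈ F.zipIdx, a ∈ gad p) ∨ ∃ c < K, a ∈ pth c := by
  simp only [edges, List.mem_append, List.mem_flatMap, List.mem_range]

theorem mem_gad {p : (ℕ × ℕ) × ℕ} {x y : ℕ} : (x, y) ∈ gad p ↔
    (x = 0 ∧ y = 8 * p.2 + 3) ∨ (x = 8 * p.2 + 3 ∧ y = 4 * p.1.1 + 2) ∨
      (x = 8 * p.2 + 3 ∧ y = 4 * p.1.2 + 2) ∨ (x = 4 * p.1.1 + 2 ∧ y = 8 * p.2 + 7) ∨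
      (x = 4 * p.1.2 + 2 ∧ y = 8 * p.2 + 7) ∨ (x = 8 * p.2 + 7 ∧ y = 1) := by
  simp only [gad, List.mem_cons, List.not_mem_nil, or_false, Prod.mk.injEq]

theorem mem_pth {c x y : ℕ} : (x, y) ∈ pth c ↔
    (x = 0 ∧ y = 4 * c + 4) ∨ (x = 4 * c + 4 ∧ y = 1) := by
  simp only [pth, List.mem_cons, List.not_mem_nil, or_false, Prod.mk.injEq]

theorem verts_nodup (hV : V.Nodup) : (verts V F K).Nodup := by
  unfold verts
  rw [List.nodup_cons, List.nodup_cons]
  refine ⟨?_, ?_, ?_⟩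
  · simp only [List.mem_cons, List.mem_append, List.mem_map, List.mem_range, List.mem_flatMap,
      List.not_mem_nil, or_false]
    rintro (h | ⟨_, _, h⟩ | ⟨_, _, h | h⟩ | ⟨_, _, h⟩) <;> omega
  · simp only [List.mem_append, List.mem_map, List.mem_range, List.mem_flatMap, List.mem_cons,
      List.not_mem_nil, or_false]
    rintro (⟨_, _, h⟩ | ⟨_, _, h | h⟩ | ⟨_, _, h⟩) <;> omega
  · refine List.Nodup.append ?_ (List.Nodup.append ?_ ?_ ?_) ?_
    · exact List.Nodup.map (fun a b h => by omega) hV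
    · rw [List.nodup_flatMap]
      refine ⟨fun j _ => by simp, ?_⟩
      refine List.Pairwise.imp ?_ (List.nodup_range (n := F.length))
      intro a b hab x h1 h2
      simp only [List.mem_cons, List.not_mem_nil, or_false] at h1 h2
      omega
    · exact List.Nodup.map (fun a b h => by omega) List.nodup_range
    · intro x h1 h2
      simp only [List.mem_flatMap, List.mem_map, List.mem_cons, List.not_mem_nil, or_false] at h1 h2
      obtain ⟨a, _, h1⟩ := h1
      obtain ⟨b, _, h2⟩ := h2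
      omega
    · intro x h1 h2
      simp only [List.mem_append, List.mem_flatMap, List.mem_map, List.mem_cons, List.not_mem_nil,
        or_false] at h1 h2
      obtain ⟨a, _, h1⟩ := h1
      rcases h2 with ⟨b, _, h2⟩ | ⟨b, _, h2⟩ <;> omega

theorem nodup_zipIdx (F : List (ℕ × ℕ)) : (F.zipIdx.map Prod.snd).Nodup := by
  have : F.zipIdx.map Prod.snd = List.range F.length := by
    apply List.ext_getElem
    · simp
    · intro i h1 h2; simp
  rw [this]
  exact List.nodup_range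

theorem edges_nodup (hF : ∀ e ∈ F, e.1 ≠ e.2) :
    ((edges F K).map (fun e => s(e.1, e.2))).Nodup := by
  unfold edges
  rw [List.map_append]
  refine List.Nodup.append ?_ ?_ ?_
  · rw [List.map_flatMap, List.nodup_flatMap]
    constructor
    · intro p hp
      have h5 := hF p.1 (mem_zipIdx hp).1
      simp only [gad, List.map_cons, List.map_nil, List.nodup_cons, List.mem_cons,
        List.not_mem_nil, or_false, Sym2.eq_iff, List.nodup_nil, not_false_eq_true, and_true]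
      omega
    · have h6 : List.Pairwise (fun a b : (ℕ × ℕ) × ℕ => a.2 ≠ b.2) F.zipIdx := by
        have := nodup_zipIdx F
        rw [List.Nodup, List.pairwise_map] at this
        exact this
      refine List.Pairwise.imp ?_ h6
      intro a b hab x h1 h2
      simp only [gad, List.map_cons, List.map_nil, List.mem_cons, List.not_mem_nil,
        or_false] at h1 h2
      rcases h1 with rfl | rfl | rfl | rfl | rfl | rfl <;>
        rcases h2 with h2 | h2 | h2 | h2 | h2 | h2 <;>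
        simp only [Sym2.eq_iff] at h2 <;> omega
  · rw [List.map_flatMap, List.nodup_flatMap]
    constructor
    · intro c _
      simp only [pth, List.map_cons, List.map_nil, List.nodup_cons, List.mem_cons,
        List.not_mem_nil, or_false, Sym2.eq_iff, List.nodup_nil, not_false_eq_true, and_true]
      omega
    · refine List.Pairwise.imp ?_ (List.nodup_range (n := K))
      intro a b hab x h1 h2
      simp only [pth, List.map_cons, List.map_nil, List.mem_cons, List.not_mem_nil,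
        or_false] at h1 h2
      rcases h1 with rfl | rfl <;> rcases h2 with h2 | h2 <;> simp only [Sym2.eq_iff] at h2 <;>
        omega
  · intro x h1 h2
    simp only [List.mem_map, List.mem_flatMap] at h1 h2
    obtain ⟨a, ⟨p, _, ha⟩, rfl⟩ := h1
    obtain ⟨b, ⟨c, _, hb⟩, h2⟩ := h2
    obtain ⟨a1, a2⟩ := a
    obtain ⟨b1, b2⟩ := b
    rw [mem_gad] at ha
    rw [mem_pth] at hb
    simp only [Sym2.eq_iff] at h2
    omega

theorem isGraph (hV : V.Nodup) (hF : ∀ e ∈ F, e.1 ∈ V ∧ e.2 ∈ V ∧ e.1 ≠ e.2) :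
    IsGraph (verts V F K) (edges F K) := by
  refine ⟨verts_nodup hV, ?_, edges_nodup fun e he => (hF e he).2.2⟩
  rintro ⟨x, y⟩ he
  simp only
  rw [mem_edges] at he
  rw [mem_verts, mem_verts]
  rcases he with ⟨p, hp, he⟩ | ⟨c, hc, he⟩
  · obtain ⟨h1, h2, _⟩ := mem_zipIdx hp
    obtain ⟨h3, h4, h5⟩ := hF _ h1
    rw [mem_gad] at he
    have g1 : ∃ j < F.length, 8 * p.2 + 3 = 8 * j + 3 ∨ 8 * p.2 + 3 = 8 * j + 7 :=
      ⟨p.2, h2, Or.inl rfl⟩
    have g2 : ∃ j < F.length, 8 * p.2 + 7 = 8 * j + 3 ∨ 8 * p.2 + 7 = 8 * j + 7 :=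
      ⟨p.2, h2, Or.inr rfl⟩
    have g3 : ∃ v ∈ V, 4 * p.1.1 + 2 = 4 * v + 2 := ⟨_, h3, rfl⟩
    have g4 : ∃ v ∈ V, 4 * p.1.2 + 2 = 4 * v + 2 := ⟨_, h4, rfl⟩
    rcases he with ⟨rfl, rfl⟩ | ⟨rfl, rfl⟩ | ⟨rfl, rfl⟩ | ⟨rfl, rfl⟩ | ⟨rfl, rfl⟩ | ⟨rfl, rfl⟩
    · exact ⟨Or.inl rfl, Or.inr (Or.inr (Or.inr (Or.inl g1))), by omega⟩
    · exact ⟨Or.inr (Or.inr (Or.inr (Or.inl g1))), Or.inr (Or.inr (Or.inl g3)), by omega⟩
    · exact ⟨Or.inr (Or.inr (Or.inr (Or.inl g1))), Or.inr (Or.inr (Or.inl g4)), by omega⟩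
    · exact ⟨Or.inr (Or.inr (Or.inl g3)), Or.inr (Or.inr (Or.inr (Or.inl g2))), by omega⟩
    · exact ⟨Or.inr (Or.inr (Or.inl g4)), Or.inr (Or.inr (Or.inr (Or.inl g2))), by omega⟩
    · exact ⟨Or.inr (Or.inr (Or.inr (Or.inl g2))), Or.inr (Or.inl rfl), by omega⟩
  · rw [mem_pth] at he
    have g1 : ∃ c' < K, 4 * c + 4 = 4 * c' + 4 := ⟨c, hc, rfl⟩
    rcases he with ⟨rfl, rfl⟩ | ⟨rfl, rfl⟩
    · exact ⟨Or.inl rfl, Or.inr (Or.inr (Or.inr (Or.inr g1))), by omega⟩
    · exact ⟨Or.inr (Or.inr (Or.inr (Or.inr g1))), Or.inr (Or.inl rfl), by omega⟩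

end Pool.Agent.H268CP
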