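import Pool.Agent.H268CP.Base

/-!
# Connectivity pairs: correctness of the construction
-/

set_option autoImplicit false

namespace Pool.Agent.H268CP

open Pool.Agent.NPC Pool.Agent.NPC.H634R2

variable {V : List ℕ} {F : List (ℕ × ℕ)} {K : ℕ}

/-- `x` is a private vertex of the gadget or path with index `i`. -/
def Priv (i x : ℕ) : Prop :=
  (∃ j, i = 2 * j ∧ (x = 8 * j + 3 ∨ x = 8 * j + 7)) ∨ ∃ c, i = 2 * c + 1 ∧ x = 4 * c + 4

theorem Priv.unique {i i' x : ℕ} (h : Priv i x) (h' : Priv i' x) : i = i' := by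
  rcases h with ⟨j, rfl, h⟩ | ⟨c, rfl, h⟩ <;> rcases h' with ⟨j', rfl, h'⟩ | ⟨c', rfl, h'⟩ <;> omega

theorem Priv.edge {i i' x y : ℕ} (he : (x, y) ∈ edges F K) (h : Priv i x) (h' : Priv i' y) :
    False := by
  rw [mem_edges] at he
  rcases he with ⟨p, _, he⟩ | ⟨c, _, he⟩
  · rw [mem_gad] at he
    rcases h with ⟨j, _, h⟩ | ⟨c, _, h⟩ <;> rcases h' with ⟨j', _, h'⟩ | ⟨c', _, h'⟩ <;> omega
  · rw [mem_pth] at he
    rcases h with ⟨j, _, h⟩ | ⟨c, _, h⟩ <;> rcases h' with ⟨j', _, h'⟩ | ⟨c', _, h'⟩ <;> omega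

/-- The edge `e` is not inside `U`. -/
def out (U : Finset ℕ) (e : ℕ × ℕ) : Bool := !(decide (e.1 ∈ U) && decide (e.2 ∈ U))

/-- The indices of the gadgets of the edges not inside `U`, and of the paths. -/
def J (F : List (ℕ × ℕ)) (K : ℕ) (U : Finset ℕ) : Finset ℕ :=
  ((Finset.range F.length).filter (fun j => out U (F.getD j (0, 0)) = true)).image (fun j => 2 * j) ∪
    (Finset.range K).image (fun c => 2 * c + 1)

theorem countP_getD (F : List (ℕ × ℕ)) (P : ℕ × ℕ → Bool) : F.countP P =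
    ((Finset.range F.length).filter (fun j => P (F.getD j (0, 0)) = true)).card := by
  have h : F = (List.range F.length).map (fun j => F.getD j (0, 0)) := by
    apply List.ext_getElem
    · simp
    · intro i h1 h2
      simp only [List.getElem_map, List.getElem_range]
      rw [List.getD_eq_getElem _ _ h1]
  conv_lhs => rw [h, List.countP_map]
  rw [List.countP_eq_length_filter, ← List.toFinset_card_of_nodup (List.nodup_range.filter _)]
  congr 1
  ext j
  simp

theorem card_J (U : Finset ℕ) : (J F K U).card = F.countP (out U) + K := by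
  unfold J
  rw [Finset.card_union_of_disjoint,
    Finset.card_image_of_injective _ (fun (a b : ℕ) (h : 2 * a = 2 * b) => by omega),
    Finset.card_image_of_injective _ (fun (a b : ℕ) (h : 2 * a + 1 = 2 * b + 1) => by omega),
    countP_getD, Finset.card_range]
  rw [Finset.disjoint_left]
  intro x h1 h2
  simp only [Finset.mem_image] at h1 h2
  obtain ⟨a, _, h1⟩ := h1
  obtain ⟨b, _, h2⟩ := h2
  omega

theorem adj_iff {a b : {x : ℕ // x ∈ verts V F K}} :
    (graphOf (verts V F K) (edges F K)).Adj a b ↔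
      a ≠ b ∧ (((a : ℕ), (b : ℕ)) ∈ edges F K ∨ ((b : ℕ), (a : ℕ)) ∈ edges F K) := Iff.rfl

theorem adj_of {a b : {x : ℕ // x ∈ verts V F K}} (h : ((a : ℕ), (b : ℕ)) ∈ edges F K)
    (hab : (a : ℕ) ≠ b) : (graphOf (verts V F K) (edges F K)).Adj a b :=
  ⟨fun h' => hab (congrArg Subtype.val h'), Or.inl h⟩

theorem gad_mem {j : ℕ} (hj : j < F.length) {a : ℕ × ℕ} (ha : a ∈ gad (F.getD j (0, 0), j)) :
    a ∈ edges F K := mem_edges.2 (Or.inl ⟨_, zipIdx_mem hj, ha⟩)

theorem pth_mem {c : ℕ} (hc : c < K) {a : ℕ × ℕ} (ha : a ∈ pth c) : a ∈ edges F K :=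
  mem_edges.2 (Or.inr ⟨c, hc, ha⟩)

/-- Lower bound for disconnecting pairs. -/
theorem lower {hs : 0 ∈ verts V F K} {ht : 1 ∈ verts V F K}
    {S : Finset {x : ℕ // x ∈ verts V F K}} {T : Finset (Sym2 {x : ℕ // x ∈ verts V F K})}
    (hF : ∀ e ∈ F, e.1 ∈ V ∧ e.2 ∈ V ∧ e.1 ≠ e.2)
    (hD : Disconnecting (graphOf (verts V F K) (edges F K)) ⟨0, hs⟩ ⟨1, ht⟩ S T) :
    ∃ U : Finset ℕ, (∀ v ∈ U, v ∈ V) ∧ U.card ≤ S.card ∧
      F.countP (out U) + K + U.card ≤ S.card + T.card := by
  classical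
  obtain ⟨h0S, h1S, hTe, hp⟩ := hD
  obtain ⟨U, hU⟩ : ∃ U : Finset ℕ, U = V.toFinset.filter
      (fun v => ∃ h : 4 * v + 2 ∈ verts V F K,
        (⟨4 * v + 2, h⟩ : {x : ℕ // x ∈ verts V F K}) ∈ S) := ⟨_, rfl⟩
  have hUV : ∀ v ∈ U, v ∈ V := by
    intro v hv
    rw [hU, Finset.mem_filter, List.mem_toFinset] at hv
    exact hv.1
  have hUc : U.card ≤ (S.filter (fun x : {x : ℕ // x ∈ verts V F K} => (x : ℕ) % 4 = 2)).card := by
    refine le_trans (Finset.card_le_card (t := (S.filter (fun x : {x : ℕ // x ∈ verts V F K} => (x : ℕ) % 4 = 2)).image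
      (fun x : {x : ℕ // x ∈ verts V F K} => (x : ℕ) / 4)) ?_) Finset.card_image_le
    intro v hv
    rw [hU, Finset.mem_filter] at hv
    obtain ⟨_, h, hS⟩ := hv
    rw [Finset.mem_image]
    exact ⟨⟨4 * v + 2, h⟩, Finset.mem_filter.2 ⟨hS, by simp only; omega⟩, by simp only; omega⟩
  have hsplit : (S.filter (fun x : {x : ℕ // x ∈ verts V F K} => (x : ℕ) % 4 = 2)).card +
      (S.filter (fun x : {x : ℕ // x ∈ verts V F K} => ¬ ((x : ℕ) % 4 = 2))).card = S.card :=
    Finset.card_filter_add_card_filter_not _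
  have hhit : ∀ i ∈ J F K U, ∃ z ∈ (S.filter (fun x : {x : ℕ // x ∈ verts V F K} => ¬ ((x : ℕ) % 4 = 2))).disjSum T,
      Sum.elim (fun x : {x : ℕ // x ∈ verts V F K} => Priv i x)
        (fun e : Sym2 {x : ℕ // x ∈ verts V F K} => ∃ x ∈ e, Priv i x) z := by
    intro i hi
    have key : (∃ x ∈ S, Priv i (x : ℕ)) ∨ (∃ e ∈ T, ∃ x ∈ e, Priv i (x : ℕ)) := by
      unfold J at hi
      rw [Finset.mem_union, Finset.mem_image, Finset.mem_image] at hi
      rcases hi with ⟨j, hj, rfl⟩ | ⟨c, hc, rfl⟩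
      · rw [Finset.mem_filter, Finset.mem_range] at hj
        obtain ⟨hj, hout⟩ := hj
        have hgF := (mem_zipIdx (zipIdx_mem hj)).1
        simp only at hgF
        obtain ⟨g1, g2, g3⟩ := hF _ hgF
        -- a vertex of the edge outside `U`
        obtain ⟨u, huV, huU, hu1, hu2⟩ : ∃ u ∈ V, u ∉ U ∧
            (8 * j + 3, 4 * u + 2) ∈ gad (F.getD j (0, 0), j) ∧
            (4 * u + 2, 8 * j + 7) ∈ gad (F.getD j (0, 0), j) := by
          by_cases c1 : (F.getD j (0, 0)).1 ∈ U
          · have c2 : (F.getD j (0, 0)).2 ∉ U := by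
              intro c2
              simp only [out, c1, c2, decide_true, Bool.and_self, Bool.not_true,
                Bool.false_eq_true] at hout
            exact ⟨_, g2, c2, by rw [mem_gad]; simp, by rw [mem_gad]; simp⟩
          · exact ⟨_, g1, c1, by rw [mem_gad]; simp, by rw [mem_gad]; simp⟩
        have m1 : 8 * j + 3 ∈ verts V F K :=
          mem_verts.2 (Or.inr (Or.inr (Or.inr (Or.inl ⟨j, hj, Or.inl rfl⟩))))
        have m2 : 4 * u + 2 ∈ verts V F K := mem_verts.2 (Or.inr (Or.inr (Or.inl ⟨u, huV, rfl⟩)))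
        have m3 : 8 * j + 7 ∈ verts V F K :=
          mem_verts.2 (Or.inr (Or.inr (Or.inr (Or.inl ⟨j, hj, Or.inr rfl⟩))))
        have a1 : (graphOf (verts V F K) (edges F K)).Adj ⟨0, hs⟩ ⟨8 * j + 3, m1⟩ :=
          adj_of (gad_mem hj (by rw [mem_gad]; simp)) (by simp only; omega)
        have a2 : (graphOf (verts V F K) (edges F K)).Adj ⟨8 * j + 3, m1⟩ ⟨4 * u + 2, m2⟩ :=
          adj_of (gad_mem hj hu1) (by simp only; omega)
        have a3 : (graphOf (verts V F K) (edges F K)).Adj ⟨4 * u + 2, m2⟩ ⟨8 * j + 7, m3⟩ :=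
          adj_of (gad_mem hj hu2) (by simp only; omega)
        have a4 : (graphOf (verts V F K) (edges F K)).Adj ⟨8 * j + 7, m3⟩ ⟨1, ht⟩ :=
          adj_of (gad_mem hj (by rw [mem_gad]; simp)) (by simp only; omega)
        have p1 : Priv (2 * j) (8 * j + 3) := Or.inl ⟨j, rfl, Or.inl rfl⟩
        have p2 : Priv (2 * j) (8 * j + 7) := Or.inl ⟨j, rfl, Or.inr rfl⟩
        have huS : (⟨4 * u + 2, m2⟩ : {x : ℕ // x ∈ verts V F K}) ∉ S := by
          intro h
          refine huU ?_
          rw [hU, Finset.mem_filter, List.mem_toFinset]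
          exact ⟨huV, m2, h⟩
        rcases hp (.cons a1 (.cons a2 (.cons a3 (.cons a4 .nil)))) with ⟨x, hx, hxS⟩ | ⟨e, he, heT⟩
        · left
          simp only [SimpleGraph.Walk.support_cons, SimpleGraph.Walk.support_nil, List.mem_cons,
            List.not_mem_nil, or_false] at hx
          rcases hx with rfl | rfl | rfl | rfl | rfl
          · exact absurd hxS h0S
          · exact ⟨_, hxS, p1⟩
          · exact absurd hxS huS
          · exact ⟨_, hxS, p2⟩
          · exact absurd hxS h1S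
        · right
          simp only [SimpleGraph.Walk.edges_cons, SimpleGraph.Walk.edges_nil, List.mem_cons,
            List.not_mem_nil, or_false] at he
          rcases he with rfl | rfl | rfl | rfl
          · exact ⟨_, heT, ⟨8 * j + 3, m1⟩, by simp, p1⟩
          · exact ⟨_, heT, ⟨8 * j + 3, m1⟩, by simp, p1⟩
          · exact ⟨_, heT, ⟨8 * j + 7, m3⟩, by simp, p2⟩
          · exact ⟨_, heT, ⟨8 * j + 7, m3⟩, by simp, p2⟩
      · rw [Finset.mem_range] at hc
        have m1 : 4 * c + 4 ∈ verts V F K :=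
          mem_verts.2 (Or.inr (Or.inr (Or.inr (Or.inr ⟨c, hc, rfl⟩))))
        have a1 : (graphOf (verts V F K) (edges F K)).Adj ⟨0, hs⟩ ⟨4 * c + 4, m1⟩ :=
          adj_of (pth_mem hc (by rw [mem_pth]; simp)) (by simp only; omega)
        have a2 : (graphOf (verts V F K) (edges F K)).Adj ⟨4 * c + 4, m1⟩ ⟨1, ht⟩ :=
          adj_of (pth_mem hc (by rw [mem_pth]; simp)) (by simp only; omega)
        have p1 : Priv (2 * c + 1) (4 * c + 4) := Or.inr ⟨c, rfl, rfl⟩
        rcases hp (.cons a1 (.cons a2 .nil)) with ⟨x, hx, hxS⟩ | ⟨e, he, heT⟩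
        · left
          simp only [SimpleGraph.Walk.support_cons, SimpleGraph.Walk.support_nil, List.mem_cons,
            List.not_mem_nil, or_false] at hx
          rcases hx with rfl | rfl | rfl
          · exact absurd hxS h0S
          · exact ⟨_, hxS, p1⟩
          · exact absurd hxS h1S
        · right
          simp only [SimpleGraph.Walk.edges_cons, SimpleGraph.Walk.edges_nil, List.mem_cons,
            List.not_mem_nil, or_false] at he
          rcases he with rfl | rfl
          · exact ⟨_, heT, ⟨4 * c + 4, m1⟩, by simp, p1⟩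
          · exact ⟨_, heT, ⟨4 * c + 4, m1⟩, by simp, p1⟩
    rcases key with ⟨x, hxS, hx⟩ | ⟨e, heT, he⟩
    · refine ⟨Sum.inl x, ?_, hx⟩
      rw [Finset.inl_mem_disjSum, Finset.mem_filter]
      refine ⟨hxS, ?_⟩
      rcases hx with ⟨j, _, h⟩ | ⟨c, _, h⟩ <;> omega
    · exact ⟨Sum.inr e, by rwa [Finset.inr_mem_disjSum], he⟩
  have : Nonempty ({x : ℕ // x ∈ verts V F K} ⊕ Sym2 {x : ℕ // x ∈ verts V F K}) :=
    ⟨Sum.inl ⟨0, hs⟩⟩
  choose! f hf1 hf2 using hhit
  have hcard : (J F K U).card ≤ ((S.filter (fun x : {x : ℕ // x ∈ verts V F K} => ¬ ((x : ℕ) % 4 = 2))).disjSum T).card := by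
    refine Finset.card_le_card_of_injOn f (fun i hi => hf1 i hi) ?_
    intro i hi i' hi' hii
    have b1 := hf2 i hi
    have b2 := hf2 i' hi'
    have b3 := hf1 i hi
    rw [← hii] at b2
    generalize f i = z at b1 b2 b3
    rcases z with x | e
    · simp only [Sum.elim_inl] at b1 b2
      exact b1.unique b2
    · simp only [Sum.elim_inr] at b1 b2
      rw [Finset.inr_mem_disjSum] at b3
      have hee := hTe e b3
      induction e with
      | _ x y =>
        rw [SimpleGraph.mem_edgeSet, adj_iff] at hee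
        simp only [Sym2.mem_iff] at b1 b2
        obtain ⟨x1, hx1, b1⟩ := b1
        obtain ⟨x2, hx2, b2⟩ := b2
        rcases hx1 with rfl | rfl <;> rcases hx2 with rfl | rfl
        · exact b1.unique b2
        · rcases hee.2 with h | h
          · exact (Priv.edge h b1 b2).elim
          · exact (Priv.edge h b2 b1).elim
        · rcases hee.2 with h | h
          · exact (Priv.edge h b2 b1).elim
          · exact (Priv.edge h b1 b2).elim
        · exact b1.unique b2
  rw [card_J, Finset.card_disjSum] at hcard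
  exact ⟨U, hUV, by omega, by omega⟩

/-- Upper bound: a disconnecting pair. -/
theorem upper {hs : 0 ∈ verts V F K} {ht : 1 ∈ verts V F K} (U : Finset ℕ) :
    ∃ (S : Finset {x : ℕ // x ∈ verts V F K}) (T : Finset (Sym2 {x : ℕ // x ∈ verts V F K})),
      Disconnecting (graphOf (verts V F K) (edges F K)) ⟨0, hs⟩ ⟨1, ht⟩ S T ∧
        S.card ≤ U.card ∧ T.card ≤ F.countP (out U) + K := by
  classical
  let R : Finset {x : ℕ // x ∈ verts V F K} := Finset.univ.filter (fun x =>
    ((x : ℕ) % 8 = 3 ∧ out U (F.getD ((x : ℕ) / 8) (0, 0)) = true) ∨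
      ((x : ℕ) % 4 = 0 ∧ (x : ℕ) ≠ 0))
  refine ⟨Finset.univ.filter (fun x => (x : ℕ) % 4 = 2 ∧ (x : ℕ) / 4 ∈ U),
    R.image (fun x => s(⟨0, hs⟩, x)), ⟨by simp, by simp, ?_, ?_⟩, ?_, ?_⟩
  · intro e he
    rw [Finset.mem_image] at he
    obtain ⟨x, hx, rfl⟩ := he
    simp only [R, Finset.mem_filter, Finset.mem_univ, true_and] at hx
    rw [SimpleGraph.mem_edgeSet]
    have hxv := mem_verts.1 x.2
    refine adj_of ?_ (by simp only; omega)
    simp only
    rcases hx with ⟨h1, _⟩ | ⟨h1, h2⟩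
    · have : ∃ j < F.length, (x : ℕ) = 8 * j + 3 := by
        rcases hxv with h | h | ⟨v, _, h⟩ | ⟨j, hj, h | h⟩ | ⟨c, _, h⟩
        · omega
        · omega
        · omega
        · exact ⟨j, hj, h⟩
        · omega
        · omega
      obtain ⟨j, hj, h⟩ := this
      rw [h]
      exact gad_mem hj (by rw [mem_gad]; simp)
    · have : ∃ c < K, (x : ℕ) = 4 * c + 4 := by
        rcases hxv with h | h | ⟨v, _, h⟩ | ⟨j, hj, h | h⟩ | ⟨c, hc, h⟩
        · omega
        · omega
        · omega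
        · omega
        · omega
        · exact ⟨c, hc, h⟩
      obtain ⟨c, hc, h⟩ := this
      rw [h]
      exact pth_mem hc (by rw [mem_pth]; simp)
  · intro p
    by_contra hcon
    push Not at hcon
    obtain ⟨hc1, hc2⟩ := hcon
    obtain ⟨d, hd, hd1, hd2⟩ := p.exists_boundary_dart
      {x : {x : ℕ // x ∈ verts V F K} | (x : ℕ) = 0 ∨
        ((x : ℕ) % 8 = 3 ∧ out U (F.getD ((x : ℕ) / 8) (0, 0)) = false)}
      (by simp) (by simp)
    have hsup := hc1 _ (p.dart_snd_mem_support_of_mem_darts hd)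
    have hedg := hc2 d.edge (List.mem_map_of_mem hd)
    have hadj := d.adj
    rw [adj_iff] at hadj
    have hdv : d.edge = s(d.fst, d.snd) := rfl
    rw [hdv] at hedg
    simp only [Finset.mem_filter, Finset.mem_univ, true_and, not_and] at hsup
    simp only [Set.mem_ofPred_eq, not_or, not_and] at hd1 hd2
    -- edges from `0` into `R`
    have hR : (d.fst : ℕ) = 0 → ¬ ((((d.snd : ℕ)) % 8 = 3 ∧
        out U (F.getD ((d.snd : ℕ) / 8) (0, 0)) = true) ∨ ((d.snd : ℕ) % 4 = 0 ∧ (d.snd : ℕ) ≠ 0)) := by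
      intro h0 h1
      apply hedg
      rw [Finset.mem_image]
      refine ⟨d.snd, by simp only [R, Finset.mem_filter, Finset.mem_univ, true_and]; exact h1, ?_⟩
      rw [show d.fst = ⟨0, hs⟩ from Subtype.ext h0]
    have hor : ((d.fst : ℕ), (d.snd : ℕ)) ∈ edges F K ∨ ((d.snd : ℕ), (d.fst : ℕ)) ∈ edges F K :=
      hadj.2
    generalize (d.fst : ℕ) = x at *
    generalize (d.snd : ℕ) = y at *
    have hxy : (∃ p ∈ F.zipIdx, (x, y) ∈ gad p ∨ (y, x) ∈ gad p) ∨
        ∃ c < K, (x, y) ∈ pth c ∨ (y, x) ∈ pth c := by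
      rcases hor with h | h
      · rw [mem_edges] at h
        rcases h with ⟨p, hp, h⟩ | ⟨c, hc, h⟩
        · exact Or.inl ⟨p, hp, Or.inl h⟩
        · exact Or.inr ⟨c, hc, Or.inl h⟩
      · rw [mem_edges] at h
        rcases h with ⟨p, hp, h⟩ | ⟨c, hc, h⟩
        · exact Or.inl ⟨p, hp, Or.inr h⟩
        · exact Or.inr ⟨c, hc, Or.inr h⟩
    rcases hxy with ⟨q, hq, h⟩ | ⟨c, hc, h⟩
    · obtain ⟨_, _, hqF⟩ := mem_zipIdx hq
      rw [mem_gad, mem_gad] at h
      have e1 : (8 * q.2 + 3) / 8 = q.2 := by omega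
      have e2 : (8 * q.2 + 3) % 8 = 3 := by omega
      rcases hd1 with h0 | ⟨h3, hin⟩
      · have hy : y = 8 * q.2 + 3 := by omega
        subst hy
        rw [e1, e2] at hd2 hR
        rw [hqF] at hd2 hR
        cases ho : out U q.1
        · exact hd2.2 rfl ho
        · exact hR h0 (Or.inl ⟨rfl, ho⟩)
      · have hx : x = 8 * q.2 + 3 := by omega
        subst hx
        rw [e1, hqF] at hin
        simp only [out, Bool.not_eq_false', Bool.and_eq_true, decide_eq_true_eq] at hin
        have hy : y = 0 ∨ y = 4 * q.1.1 + 2 ∨ y = 4 * q.1.2 + 2 := by omega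
        rcases hy with rfl | rfl | rfl
        · exact hd2.1 rfl
        · refine hsup (by omega) ?_
          rw [show (4 * q.1.1 + 2) / 4 = q.1.1 by omega]
          exact hin.1
        · refine hsup (by omega) ?_
          rw [show (4 * q.1.2 + 2) / 4 = q.1.2 by omega]
          exact hin.2
    · rw [mem_pth, mem_pth] at h
      rcases hd1 with h0 | ⟨h3, hin⟩
      · have hy : y = 4 * c + 4 := by omega
        exact hR h0 (Or.inr ⟨by omega, by omega⟩)
      · omega
  · refine le_trans (Finset.card_le_card_of_injOn (fun x => (x : ℕ) / 4) (t := U) ?_ ?_) le_rfl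
    · intro x hx
      simp only [Finset.coe_filter, Finset.mem_univ, true_and, Set.mem_ofPred_eq] at hx
      exact hx.2
    · intro x hx y hy hxy
      simp only [Finset.coe_filter, Finset.mem_univ, true_and, Set.mem_ofPred_eq] at hx hy hxy
      exact Subtype.ext (by omega)
  · refine le_trans Finset.card_image_le ?_
    rw [← card_J (F := F) (K := K) U]
    refine Finset.card_le_card_of_injOn (fun x => if (x : ℕ) % 8 = 3 then 2 * ((x : ℕ) / 8) else
      2 * (((x : ℕ) - 4) / 4) + 1) ?_ ?_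
    · intro x hx
      simp only [R, Finset.coe_filter, Finset.mem_univ, true_and, Set.mem_ofPred_eq] at hx
      simp only [J, Finset.coe_union, Finset.coe_image, Set.mem_union, Set.mem_image,
        Finset.mem_coe, Finset.mem_filter, Finset.mem_range]
      have hxv := mem_verts.1 x.2
      rcases hx with ⟨h1, h2⟩ | ⟨h1, h2⟩
      · left
        rw [if_pos h1]
        refine ⟨(x : ℕ) / 8, ⟨?_, h2⟩, rfl⟩
        rcases hxv with h | h | ⟨v, _, h⟩ | ⟨j, hj, h | h⟩ | ⟨c, _, h⟩ <;> omega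
      · right
        rw [if_neg (by omega)]
        refine ⟨((x : ℕ) - 4) / 4, ?_, rfl⟩
        rcases hxv with h | h | ⟨v, _, h⟩ | ⟨j, hj, h | h⟩ | ⟨c, _, h⟩ <;> omega
    · intro x hx y hy hxy
      simp only [R, Finset.coe_filter, Finset.mem_univ, true_and, Set.mem_ofPred_eq] at hx hy
      simp only at hxy
      apply Subtype.ext
      split_ifs at hxy <;> omega

end Pool.Agent.H268CP
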