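import Pool.Agent.H268CP.Cor
import Pool.Agent.H598R2.Collapse

/-!
# Computing the second coordinate of a connectivity pair is NP-hard

Let `G` be a finite simple graph, `v ≠ w` two vertices and `k ≤ κ(v, w)`.  If `(k, l)` is a `v`–`w`
connectivity pair, then (for non-adjacent `v`, `w`) `l` is the least number of edges of a `v`–`w`
disconnecting pair with at most `k` vertices.

Idea of the reduction (from the clique problem).  Let a graph with the lists `V`, `E` of vertices and
edges and a number `k ≥ 2` be given; we may assume `k ≤ |V| + 2`.  Put `N = k + 1` and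
`K = N (k choose 2) + k`.  Take the terminals `s`, `t`, a vertex `a_v` for every `v ∈ V`, and for
every edge `e = u v` of `E` and every `i < N` a gadget with two private vertices `w`, `x` and the six
edges `s w`, `w a_u`, `w a_v`, `a_u x`, `a_v x`, `x t`.  Finally take `K` paths `s p t` with private
vertices `p`.  Deleting the vertices `a_v`, `v ∈ U`, disconnects exactly the gadgets of the edges
inside `U`; each of the other gadgets and of the paths needs an own vertex or edge.  So a
disconnecting pair with at most `k` vertices and at most `N |E| + k` edges exists iff some set `U`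
of at most `k` vertices contains at least `k choose 2` edges, i.e. iff there is a clique of size `k`.
The `K ≥ k` paths give `k ≤ κ(s, t)`.
-/

set_option autoImplicit false

namespace Pool.Agent.H268CP

open Pool.Agent.NPC Pool.Agent.NPC.H634R2

/-- `N` copies of the list `E`. -/
def copies (N : ℕ) (E : List (ℕ × ℕ)) : List (ℕ × ℕ) :=
  (List.replicate N ()).flatMap (fun _ => E)

theorem mem_copies {N : ℕ} {E : List (ℕ × ℕ)} {e : ℕ × ℕ} (h : e ∈ copies N E) : e ∈ E := by
  unfold copies at h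
  rw [List.mem_flatMap] at h
  obtain ⟨_, _, h⟩ := h
  exact h

theorem countP_copies (N : ℕ) (E : List (ℕ × ℕ)) (q : ℕ × ℕ → Bool) :
    (copies N E).countP q = N * E.countP q := by
  unfold copies
  rw [List.countP_flatMap]
  have : List.map (List.countP q ∘ fun _ => E) (List.replicate N ()) =
      List.replicate N (E.countP q) := by
    rw [List.map_replicate]
    rfl
  rw [this, List.sum_replicate, smul_eq_mul]

/-- the bound on `k` -/
def kk (I : (List ℕ × List (ℕ × ℕ)) × ℕ) : ℕ := min I.2 (I.1.1.length + 2)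

/-- the number of paths -/
def KK (I : (List ℕ × List (ℕ × ℕ)) × ℕ) : ℕ :=
  (kk I + 1) * (kk I * (kk I - 1) / 2) + kk I

/-- The reduction from the clique problem: the instance together with the threshold. -/
def red (I : (List ℕ × List (ℕ × ℕ)) × ℕ) : Inst × ℕ :=
  ((((verts I.1.1 (copies (kk I + 1) I.1.2) (KK I), edges (copies (kk I + 1) I.1.2) (KK I)), (0, 1)),
    kk I), (kk I + 1) * I.1.2.length + kk I)

theorem upoly_kk : UPoly kk := by
  have h1 : Poly (fun I : (List ℕ × List (ℕ × ℕ)) × ℕ => I.1.1) := Poly.fst (Poly.fst Poly.id)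
  have h2 : UPoly (fun I : (List ℕ × List (ℕ × ℕ)) × ℕ => I.1.1.length + 2) :=
    UPoly.add (UPoly.length h1) (UPoly.const 2)
  exact UPoly.of_le (Poly.min (Poly.snd Poly.id) h2.toPoly) h2 fun a => min_le_right _ _

theorem upoly_KK : UPoly KK := by
  have h1 : UPoly (fun I => kk I + 1) := UPoly.add upoly_kk (UPoly.const 1)
  have h2 : UPoly (fun I => kk I * (kk I - 1) / 2) := by
    refine UPoly.of_le ?_ (UPoly.mul upoly_kk upoly_kk) fun a => ?_
    · exact Poly.div (Poly.mul upoly_kk.toPoly (Poly.sub upoly_kk.toPoly (NPC.Poly.const 1)))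
        (NPC.Poly.const 2)
    · exact (Nat.div_le_self _ _).trans (Nat.mul_le_mul_left _ (Nat.sub_le _ _))
  exact UPoly.add (UPoly.mul h1 h2) upoly_kk

section poly
variable {α : Type} [TEnc α] {V : α → List ℕ} {F : α → List (ℕ × ℕ)} {K : α → ℕ}

theorem poly_lin {n : α → ℕ} (hn : Poly n) (a c : ℕ) : Poly (fun x => a * n x + c) :=
  Poly.add (Poly.mul (NPC.Poly.const a) hn) (NPC.Poly.const c)

theorem poly_verts (hV : Poly V) (hF : Poly F) (hK : UPoly K) :
    Poly (fun a => verts (V a) (F a) (K a)) := by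
  refine Poly.cons (NPC.Poly.const 0) (Poly.cons (NPC.Poly.const 1) (Poly.append ?_ (Poly.append ?_ ?_)))
  · exact NPC.Poly.map (F := fun _ i => 4 * i + 2) hV (poly_lin (Poly.snd Poly.id) 4 2)
  · exact Poly.flatMap (F := fun _ (j : ℕ) => [8 * j + 3, 8 * j + 7]) (Poly.range_length hF)
      (Poly.cons (poly_lin (Poly.snd Poly.id) 8 3)
        (Poly.cons (poly_lin (Poly.snd Poly.id) 8 7) (NPC.Poly.const [])))
  · exact NPC.Poly.map (F := fun _ i => 4 * i + 4) hK.range (poly_lin (Poly.snd Poly.id) 4 4)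

theorem poly_edges (hF : Poly F) (hK : UPoly K) : Poly (fun a => edges (F a) (K a)) := by
  refine Poly.append ?_ ?_
  · refine Poly.flatMap (F := fun _ (p : (ℕ × ℕ) × ℕ) => gad p) (Poly.zipIdx hF) ?_
    have hw : Poly (fun q : α × ((ℕ × ℕ) × ℕ) => 8 * q.2.2 + 3) :=
      poly_lin (Poly.snd (Poly.snd Poly.id)) 8 3
    have hx : Poly (fun q : α × ((ℕ × ℕ) × ℕ) => 8 * q.2.2 + 7) :=
      poly_lin (Poly.snd (Poly.snd Poly.id)) 8 7
    have hu : Poly (fun q : α × ((ℕ × ℕ) × ℕ) => 4 * q.2.1.1 + 2) :=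
      poly_lin (Poly.fst (Poly.fst (Poly.snd Poly.id))) 4 2
    have hv : Poly (fun q : α × ((ℕ × ℕ) × ℕ) => 4 * q.2.1.2 + 2) :=
      poly_lin (Poly.snd (Poly.fst (Poly.snd Poly.id))) 4 2
    exact Poly.cons (Poly.pair (NPC.Poly.const 0) hw) (Poly.cons (Poly.pair hw hu)
      (Poly.cons (Poly.pair hw hv) (Poly.cons (Poly.pair hu hx) (Poly.cons (Poly.pair hv hx)
        (Poly.cons (Poly.pair hx (NPC.Poly.const 1)) (NPC.Poly.const []))))))
  · refine Poly.flatMap (F := fun _ (c : ℕ) => pth c) hK.range ?_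
    have hc : Poly (fun q : α × ℕ => 4 * q.2 + 4) := poly_lin (Poly.snd Poly.id) 4 4
    exact Poly.cons (Poly.pair (NPC.Poly.const 0) hc)
      (Poly.cons (Poly.pair hc (NPC.Poly.const 1)) (NPC.Poly.const []))

theorem poly_copies {N : α → ℕ} (hN : UPoly N) (hF : Poly F) :
    Poly (fun a => copies (N a) (F a)) :=
  Poly.flatMap (F := fun a (_ : Unit) => F a) hN (hF.comp (Poly.fst Poly.id))

end poly

theorem poly_red : Poly red := by
  have hV : Poly (fun I : (List ℕ × List (ℕ × ℕ)) × ℕ => I.1.1) := Poly.fst (Poly.fst Poly.id)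
  have hE : Poly (fun I : (List ℕ × List (ℕ × ℕ)) × ℕ => I.1.2) := Poly.snd (Poly.fst Poly.id)
  have hN : UPoly (fun I => kk I + 1) := UPoly.add upoly_kk (UPoly.const 1)
  have hF : Poly (fun I : (List ℕ × List (ℕ × ℕ)) × ℕ => copies (kk I + 1) I.1.2) :=
    poly_copies hN hE
  exact Poly.pair (Poly.pair (Poly.pair (Poly.pair (poly_verts hV hF upoly_KK)
    (poly_edges hF upoly_KK)) (NPC.Poly.const (0, 1))) upoly_kk.toPoly)
    (Poly.add (Poly.mul hN.toPoly (Poly.length hE)) upoly_kk.toPoly)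

/-- The problem: `l ≤ m` for the connectivity pair `(k, l)`. -/
def AtMost (I : Inst × ℕ) : Prop := Valid I.1 ∧ ∃ l, SecondCoordinate I.1 l ∧ l ≤ I.2

/-- The problem: `l ≥ m` for the connectivity pair `(k, l)`. -/
def AtLeast (I : Inst × ℕ) : Prop := Valid I.1 ∧ ∃ l, SecondCoordinate I.1 l ∧ I.2 ≤ l

theorem hasClique_kk {V : List ℕ} {E : List (ℕ × ℕ)} (k : ℕ) :
    HasClique V E k ↔ HasClique V E (min k (V.length + 2)) := by
  rcases le_total k (V.length + 2) with hk | hk
  · rw [min_eq_left hk]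
  · rw [min_eq_right hk]
    have : ∀ k', V.length + 2 ≤ k' → ¬ HasClique V E k' := by
      rintro k' hk' ⟨K, hKV, hK, _⟩
      have h1 : K.card ≤ V.toFinset.card := Finset.card_le_card fun v hv =>
        List.mem_toFinset.2 (hKV v hv)
      have h2 := V.toFinset_card_le
      omega
    exact iff_of_false (this _ hk) (this _ le_rfl)

/-- The correctness of the reduction. -/
theorem red_spec {V : List ℕ} {E : List (ℕ × ℕ)} {k : ℕ} (h : IsGraph V E) (hk : 2 ≤ k) :
    (Valid (red ((V, E), k)).1 ∧ NonAdjacent (red ((V, E), k)).1) ∧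
      (HasClique V E k ↔ AtMost (red ((V, E), k))) := by
  rw [hasClique_kk k]
  obtain ⟨k', hk'⟩ : ∃ k', k' = min k (V.length + 2) := ⟨_, rfl⟩
  have hk2 : 2 ≤ k' := by omega
  obtain ⟨F, hF⟩ : ∃ F, F = copies (k' + 1) E := ⟨_, rfl⟩
  obtain ⟨K, hK⟩ : ∃ K, K = (k' + 1) * (k'.choose 2) + k' := ⟨_, rfl⟩
  have hred : red ((V, E), k) = ((((verts V F K, edges F K), (0, 1)), k'),
      (k' + 1) * E.length + k') := by
    simp only [red, KK, kk, ← hk', ← Nat.choose_two_right, ← hF, ← hK]
  rw [hred, ← hk']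
  have hFm : ∀ e ∈ F, e.1 ∈ V ∧ e.2 ∈ V ∧ e.1 ≠ e.2 := fun e he => h.2.1 e (by
    rw [hF] at he
    exact mem_copies he)
  have m0 : 0 ∈ verts V F K := mem_verts.2 (Or.inl rfl)
  have m1 : 1 ∈ verts V F K := mem_verts.2 (Or.inr (Or.inl rfl))
  have hkap : LeKappa (graphOf (verts V F K) (edges F K)) ⟨0, m0⟩ ⟨1, m1⟩ k' := by
    intro S hS
    have hD : Disconnecting (graphOf (verts V F K) (edges F K)) ⟨0, m0⟩ ⟨1, m1⟩ S ∅ :=
      ⟨hS.1, hS.2.1, by simp, fun p => Or.inl (hS.2.2 p)⟩
    obtain ⟨U, _, _, h2⟩ := lower hFm hD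
    rw [Finset.card_empty] at h2
    have : k' ≤ K := by rw [hK]; exact Nat.le_add_left _ _
    omega
  have hvalid : Valid (((verts V F K, edges F K), (0, 1)), k') :=
    ⟨isGraph h.1 hFm, by simp, m0, m1, hkap⟩
  have hnon : NonAdjacent (((verts V F K, edges F K), (0, 1)), k') := by
    constructor <;> simp only <;> rw [mem_edges] <;>
      rintro (⟨p, _, hp⟩ | ⟨c, _, hc⟩)
    · rw [mem_gad] at hp; omega
    · rw [mem_pth] at hc; omega
    · rw [mem_gad] at hp; omega
    · rw [mem_pth] at hc; omega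
  refine ⟨⟨hvalid, hnon⟩, ?_⟩
  have hne : (⟨0, m0⟩ : {x : ℕ // x ∈ verts V F K}) ≠ ⟨1, m1⟩ := by
    intro h'
    exact absurd (congrArg Subtype.val h') (by simp)
  have hAM : AtMost ((((verts V F K, edges F K), (0, 1)), k'), (k' + 1) * E.length + k') ↔
      ∃ S T, Disconnecting (graphOf (verts V F K) (edges F K)) ⟨0, m0⟩ ⟨1, m1⟩ S T ∧
        S.card ≤ k' ∧ T.card ≤ (k' + 1) * E.length + k' := by
    rw [← coord_le_iff hne]
    unfold AtMost
    simp only
    constructor
    · rintro ⟨_, l, hl, hlm⟩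
      rw [secondCoordinate_iff hvalid hnon] at hl
      subst hl
      have hc : coordI (((verts V F K, edges F K), (0, 1)), k') =
          coord (graphOf (verts V F K) (edges F K)) ⟨0, m0⟩ ⟨1, m1⟩ k' := by
        unfold coordI
        rw [dif_pos ⟨m0, m1⟩]
      rw [← hc]
      exact hlm
    · intro hle
      refine ⟨hvalid, _, (secondCoordinate_iff hvalid hnon).2 rfl, ?_⟩
      have hc : coordI (((verts V F K, edges F K), (0, 1)), k') =
          coord (graphOf (verts V F K) (edges F K)) ⟨0, m0⟩ ⟨1, m1⟩ k' := by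
        unfold coordI
        rw [dif_pos ⟨m0, m1⟩]
      rw [hc]
      exact hle
  rw [hAM, hasClique_iff h hk2]
  have hsplit : ∀ U : Finset ℕ, E.length = inside E U + E.countP (out U) := by
    intro U
    unfold inside
    rw [List.length_eq_countP_add_countP (fun e => decide (e.1 ∈ U) && decide (e.2 ∈ U))]
    congr 1
    apply List.countP_congr
    intro e _
    simp [out]
  have hcount : ∀ U : Finset ℕ, F.countP (out U) = (k' + 1) * E.countP (out U) := by
    intro U
    rw [hF, countP_copies]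
  constructor
  · rintro ⟨U, _, hcard, hU⟩
    obtain ⟨S, T, hD, hS, hT⟩ := upper (V := V) (F := F) (K := K) (hs := m0) (ht := m1) U
    refine ⟨S, T, hD, hS.trans hcard, hT.trans ?_⟩
    rw [hcount, hK, hsplit U]
    nlinarith [Nat.mul_le_mul_left (k' + 1) hU]
  · rintro ⟨S, T, hD, hS, hT⟩
    obtain ⟨U, hUV, hUS, hle⟩ := lower hFm hD
    refine ⟨U, hUV, hUS.trans hS, ?_⟩
    rw [hcount] at hle
    have hle' : (k' + 1) * E.countP (out U) + ((k' + 1) * k'.choose 2 + k') + U.card ≤
        S.card + T.card := by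
      rw [← hK]
      exact hle
    rw [hsplit U] at hT
    by_contra hcon
    push Not at hcon
    have h1 : (k' + 1) * (inside E U + 1) ≤ (k' + 1) * k'.choose 2 := Nat.mul_le_mul_left _ hcon
    nlinarith

theorem hardPr_atMost :
    HardPr (fun I : Inst × ℕ => Valid I.1 ∧ NonAdjacent I.1) AtMost := by
  refine hardPr_CLIQUE.trans poly_red ?_ ?_
  · rintro ⟨⟨V, E⟩, k⟩ ⟨h, hk⟩
    exact (red_spec h hk).1
  · rintro ⟨⟨V, E⟩, k⟩ ⟨h, hk⟩
    have hcl : CLIQUE ((V, E), k) ↔ HasClique V E k := ⟨fun h' => h'.2, fun h' => ⟨h, h'⟩⟩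
    rw [hcl]
    exact (red_spec h hk).2

theorem atMost_iff {I : Inst × ℕ} (hI : Valid I.1 ∧ NonAdjacent I.1) :
    AtMost I ↔ coordI I.1 ≤ I.2 := by
  constructor
  · rintro ⟨_, l, hl, hle⟩
    rw [secondCoordinate_iff hI.1 hI.2] at hl
    omega
  · intro h
    exact ⟨hI.1, _, (secondCoordinate_iff hI.1 hI.2).2 rfl, h⟩

theorem atLeast_iff {I : Inst × ℕ} (hI : Valid I.1 ∧ NonAdjacent I.1) :
    AtLeast I ↔ I.2 ≤ coordI I.1 := by
  constructor
  · rintro ⟨_, l, hl, hle⟩
    rw [secondCoordinate_iff hI.1 hI.2] at hl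
    omega
  · intro h
    exact ⟨hI.1, _, (secondCoordinate_iff hI.1 hI.2).2 rfl, h⟩

theorem hardPr_not_atLeast :
    HardPr (fun I : Inst × ℕ => Valid I.1 ∧ NonAdjacent I.1) (fun I => ¬ AtLeast I) := by
  refine hardPr_atMost.trans (f := fun I => (I.1, I.2 + 1))
    (Poly.pair (Poly.fst Poly.id) (Poly.add (Poly.snd Poly.id) (NPC.Poly.const 1))) ?_ ?_
  · intro I hI
    exact hI
  · intro I hI
    rw [atMost_iff hI, atLeast_iff (I := (I.1, I.2 + 1)) hI]
    simp only
    omega

end Pool.Agent.H268CP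

namespace Pool.Agent.H268CP.Hardness

open Pool.Agent.NPC Pool.Agent.H268CP

/-- **The second coordinate of a connectivity pair is hard to compute.**

(1) Every language in NP reduces in polynomial time to the question `l ≤ m`, with correct inputs in
which `v` and `w` are not adjacent.
(2) On correct inputs with non-adjacent `v`, `w` the number `l` exists and is unique.
(3), (4) The decision problem `l ≤ m` is NP-hard and the decision problem `l ≥ m` is coNP-hard.
(5) If some polynomial-time function computes `l` on the correct inputs with non-adjacent `v`, `w`,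
then P = NP. -/
theorem result :
    (∀ L, InNP L → ∃ f : List Bool → Inst × ℕ, PolyTime (fun x => bits (f x)) ∧ ∀ x,
      Valid (f x).1 ∧ NonAdjacent (f x).1 ∧
        (x ∈ L ↔ ∃ l, SecondCoordinate (f x).1 l ∧ l ≤ (f x).2)) ∧
    (∀ I : Inst, Valid I → NonAdjacent I → ∃! l, SecondCoordinate I l) ∧
    NPHardP (fun I : Inst × ℕ => Valid I.1 ∧ ∃ l, SecondCoordinate I.1 l ∧ l ≤ I.2) ∧
    CoNPHardP (fun I : Inst × ℕ => Valid I.1 ∧ ∃ l, SecondCoordinate I.1 l ∧ I.2 ≤ l) ∧
    ((∃ A : List Bool → List Bool, PolyTime A ∧ ∀ I : Inst, Valid I → NonAdjacent I →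
      ∀ l, SecondCoordinate I l → A (bits I) = bits l) → ∀ L, InNP L → InP L) := by
  refine ⟨?_, ?_, hardPr_atMost.toHardI.toNPHardP, hardPr_not_atLeast.toCoNPHardP, ?_⟩
  · intro L hL
    obtain ⟨f, hf, hpr, hfL⟩ := hardPr_atMost L hL
    refine ⟨f, PC.toPolyTime hf, fun x => ⟨(hpr x).1, (hpr x).2, ?_⟩⟩
    rw [hfL x]
    exact ⟨fun h => h.2, fun h => ⟨(hpr x).1, h⟩⟩
  · intro I hI hn
    refine ⟨coordI I, (secondCoordinate_iff hI hn).2 rfl, fun l hl => ?_⟩
    exact (secondCoordinate_iff hI hn).1 hl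
  · rintro ⟨A, hA, hAI⟩
    refine H598R2.collapse_fun (c := coordI) hardPr_atMost (fun I hI => atMost_iff hI) hA ?_
    intro I hI
    exact hAI _ hI.1 hI.2 _ ((secondCoordinate_iff hI.1 hI.2).2 rfl)

end Pool.Agent.H268CP.Hardness
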